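import Pool.Agent.R50.PlanarCograph2

/-!
# A planar triangle-free graph with cograph chromatic number three

The graph has 55 vertices and is given with a straight line drawing.  It consists of a path
`v₁ v₂ v₃ v₄` and of copies of a gadget attached to the pairs `v₁ v₃`, `v₂ v₄`, `v₁ v₄`; in a
partition into two cographs the gadget forces both vertices of its pair into the same part.
-/

set_option autoImplicit false

namespace Pool.Agent.Results.MP_b5aa49_co.FiftyFiveVertices

/-- `G` has a straight line drawing in the plane without crossings: `p` is injective, no vertex lies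
on an edge of which it is not an end, and two different edges have no common point other than the
position of a vertex. -/
def IsPlanar {V : Type} (G : SimpleGraph V) : Prop :=
  ∃ p : V → ℝ × ℝ, Function.Injective p ∧
    (∀ a b z, G.Adj a b → p z ∈ segment ℝ (p a) (p b) → z = a ∨ z = b) ∧
    ∀ a b x y, G.Adj a b → G.Adj x y → s(a, b) ≠ s(x, y) →
      ∀ q, q ∈ segment ℝ (p a) (p b) → q ∈ segment ℝ (p x) (p y) → ∃ z, q = p z

/-- A cograph: a graph without induced path on four vertices. -/
def IsCograph {V : Type} (G : SimpleGraph V) : Prop :=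
  ¬ (SimpleGraph.pathGraph 4).IsIndContained G

/-- The c-chromatic number: the least `k` such that the vertex set can be partitioned into `k` sets
each of which induces a cograph. -/
noncomputable def cChromaticNumber {V : Type} (G : SimpleGraph V) : ℕ :=
  sInf {k : ℕ | ∃ f : V → Fin k, ∀ i, IsCograph (G.induce (f ⁻¹' {i}))}

open Pool.Agent.R50.PlanarCograph

theorem planar : IsPlanar G :=
  ⟨pt, pt_inj, fun _ _ _ h h' => vertex_edge h h', fun a b x y hab hxy hne q hq hq' => by
    obtain ⟨z, hz, -, -⟩ := meet hab hxy hne hq hq'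
    exact ⟨z, hz⟩⟩

theorem three_mem : ∃ f : Fin 55 → Fin 3, ∀ i, IsCograph (G.induce (f ⁻¹' {i})) := by
  refine ⟨fun v => ⟨col.getD v 0, col_lt3 v⟩, ?_⟩
  rintro i ⟨e⟩
  have h1 : (SimpleGraph.pathGraph 4).Adj 0 1 := by
    rw [SimpleGraph.pathGraph_adj]
    exact Or.inl rfl
  have h2 : G.Adj (e 0).1 (e 1).1 := e.map_rel_iff.2 h1
  have h3 : col.getD (e 0).1 0 = i.val := congrArg Fin.val (e 0).2
  have h4 : col.getD (e 1).1 0 = i.val := congrArg Fin.val (e 1).2
  exact col_ne (e 0).1.2 (e 1).1.2 h2 (h3.trans h4.symm)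

theorem two_not (f : Fin 55 → Fin 2) (hf : ∀ i, IsCograph (G.induce (f ⁻¹' {i}))) : False := by
  let c : ℕ → Bool := fun n => if h : n < 55 then decide (f ⟨n, h⟩ = 0) else true
  obtain ⟨a, b, d, e, ha, hb, hd, he, ⟨h1, h2, h3, h4, h5, h6, h7, h8, h9⟩, c1, c2, c3⟩ :=
    exists_mono c
  have hc : ∀ x y (hx : x < 55) (hy : y < 55), c x = c y → f ⟨x, hx⟩ = f ⟨y, hy⟩ := by
    intro x y hx hy hxy
    have hxy' : decide (f ⟨x, hx⟩ = 0) = decide (f ⟨y, hy⟩ = 0) := by
      have e1 : c x = decide (f ⟨x, hx⟩ = 0) := dif_pos hx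
      have e2 : c y = decide (f ⟨y, hy⟩ = 0) := dif_pos hy
      rw [← e1, ← e2, hxy]
    revert hxy'
    generalize f ⟨x, hx⟩ = s
    generalize f ⟨y, hy⟩ = t
    revert s t
    decide
  have f1 := hc a b ha hb c1
  have f2 := hc b d hb hd c2
  have f3 := hc d e hd he c3
  let q : Fin 4 → Fin 55 := ![⟨a, ha⟩, ⟨b, hb⟩, ⟨d, hd⟩, ⟨e, he⟩]
  have hq : ∀ i, f (q i) = f ⟨a, ha⟩ := by
    intro i
    fin_cases i
    · rfl
    · exact f1.symm
    · exact (f1.trans f2).symm
    · exact (f1.trans (f2.trans f3)).symm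
  apply hf (f ⟨a, ha⟩)
  have s1 : adj b a = true := by rw [adj_comm hb ha]; exact h1
  have s2 : adj d b = true := by rw [adj_comm hd hb]; exact h2
  have s3 : adj e d = true := by rw [adj_comm he hd]; exact h3
  have s4 : adj d a = false := by rw [adj_comm hd ha]; exact h4
  have s5 : adj e a = false := by rw [adj_comm he ha]; exact h5
  have s6 : adj e b = false := by rw [adj_comm he hb]; exact h6
  have hadj : ∀ i j : Fin 4, G.Adj (q i) (q j) ↔ (SimpleGraph.pathGraph 4).Adj i j := by
    intro i j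
    rw [SimpleGraph.pathGraph_adj]
    fin_cases i <;> fin_cases j <;>
      simp [G, q, h1, h2, h3, h4, h5, h6, s1, s2, s3, s4, s5, s6]
  have hinj : Function.Injective q := by
    have nab : a ≠ b := fun h => by rw [h, adj_irrefl hb] at h1; exact absurd h1 (by simp)
    have nbd : b ≠ d := fun h => by rw [h, adj_irrefl hd] at h2; exact absurd h2 (by simp)
    have nde : d ≠ e := fun h => by rw [h, adj_irrefl he] at h3; exact absurd h3 (by simp)
    intro i j hij
    fin_cases i <;> fin_cases j <;> simp_all [q]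
  refine ⟨⟨⟨fun i => ⟨q i, hq i⟩, fun i j hij => hinj (congrArg Subtype.val hij)⟩, ?_⟩⟩
  intro i j
  exact hadj i j

/-- There is a planar triangle-free graph with c-chromatic number `3`; it has 55 vertices. -/
theorem result : ∃ G : SimpleGraph (Fin 55), IsPlanar G ∧ G.CliqueFree 3 ∧
    cChromaticNumber G = 3 := by
  refine ⟨G, planar, G_triangleFree, ?_⟩
  apply le_antisymm
  · exact Nat.sInf_le three_mem
  · by_contra hcon
    push Not at hcon
    have hne : {k : ℕ | ∃ f : Fin 55 → Fin k, ∀ i, IsCograph (G.induce (f ⁻¹' {i}))}.Nonempty :=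
      ⟨3, three_mem⟩
    have hmem := Nat.sInf_mem hne
    obtain ⟨n, hneq⟩ : ∃ n, n = sInf {k : ℕ | ∃ f : Fin 55 → Fin k, ∀ i,
      IsCograph (G.induce (f ⁻¹' {i}))} := ⟨_, rfl⟩
    rw [← hneq] at hmem
    have hn : n ≤ 2 := by
      have h1 : n < 3 := by rw [hneq]; exact hcon
      omega
    obtain ⟨f, hf⟩ := hmem
    refine two_not (fun v => Fin.castLE hn (f v)) ?_
    rintro i ⟨e⟩
    have hi : i.val < n := by
      have h1 : (f (e 0).1).val = i.val := congrArg Fin.val (e 0).2
      rw [← h1]
      exact (f (e 0).1).2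
    apply hf ⟨i.val, hi⟩
    refine ⟨⟨⟨fun j => ⟨(e j).1, ?_⟩, ?_⟩, ?_⟩⟩
    · have h1 : (Fin.castLE hn (f (e j).1)).val = i.val := congrArg Fin.val (e j).2
      exact Fin.ext h1
    · intro j k hjk
      exact e.injective (Subtype.ext (congrArg (fun x => x.1) hjk))
    · intro j k
      exact e.map_rel_iff

end Pool.Agent.Results.MP_b5aa49_co.FiftyFiveVertices
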